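import Pool.Agent.helper62.K3.Defs

/-!
Module hk:P4 of the project HK: the other coordinates are holomorphic.
-/

open scoped Manifold ContDiff

noncomputable section

namespace Pool.Agent.helper62.K3

lemma P4_sqrt {E : Type} [NormedAddCommGroup E] [NormedSpace ℂ E] (h R : E → ℂ) (u0 : E)
    (hc : ContinuousAt h u0) (h0 : h u0 ≠ 0) (hR : AnalyticAt ℂ R u0)
    (hh : ∀ᶠ u in nhds u0, h u ^ 2 = R u) : AnalyticAt ℂ h u0 := by
  have h1 : ContinuousAt (fun u => h u / h u0) u0 := hc.div_const _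
  have h2 : ∀ᶠ u in nhds u0, 0 < (h u / h u0).re := by
    have h3 : ContinuousAt (fun u => (h u / h u0).re) u0 :=
      Complex.continuous_re.continuousAt.comp h1
    refine h3.eventually_const_lt ?_
    simp only [div_self h0, Complex.one_re]
    exact one_pos
  have h3 : (fun u => h u0 * (R u / h u0 ^ 2) ^ ((2 : ℂ)⁻¹)) =ᶠ[nhds u0] h := by
    filter_upwards [h2, hh] with u hu hu2
    rw [← hu2, ← div_pow, Complex.sq_cpow_two_inv hu, mul_div_cancel₀ _ h0]
  refine AnalyticAt.congr ?_ h3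
  refine analyticAt_const.mul (AnalyticAt.cpow (hR.div_const) analyticAt_const ?_)
  rw [← hh.self_of_nhds, div_self (pow_ne_zero 2 h0)]
  exact Complex.one_mem_slitPlane

lemma P4_fst (x : ℂ × ℂ) : AnalyticAt ℂ (fun u : ℂ × ℂ => u.1) x :=
  (ContinuousLinearMap.fst ℂ ℂ ℂ).analyticAt x

lemma P4_snd (x : ℂ × ℂ) : AnalyticAt ℂ (fun u : ℂ × ℂ => u.2) x :=
  (ContinuousLinearMap.snd ℂ ℂ ℂ).analyticAt x

/-- hk:P4 the other coordinates are holomorphic -/
theorem P4_of
    (hP1 : ∀ (A : Finset (Fin 6)) (_ : A.card = 3) (y : Fin 6 → ℂ),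
      y ∈ KK ↔ ∀ j, j ∉ A → y j = ∑ s ∈ A, Lc A j s * y s)
    (hzc : ∀ (a i : Fin 6), ContinuousOn (zc a i) {T | T.1 a a ≠ 0})
    (hrel : ∀ (a : Fin 6) (T : X0) (_ : T.1 a a ≠ 0),
      zc a a T = 1 ∧ (fun i => zc a i T ^ 2) ∈ KK ∧
      (∀ i j, T.1 i j = zc a i T * (starRingEnd ℂ) (zc a j T) /
        ((∑ k, ‖zc a k T‖ ^ 2 : ℝ) : ℂ)) ∧
      (∀ i, T.1 i i = 0 ↔ zc a i T = 0) ∧
      (∀ b, T.1 b b ≠ 0 → ∀ i, zc b i T = zc a i T / zc a b T))
    (a b c : Fin 6) (e : OpenPartialHomeomorph X0 (ℂ × ℂ)) (he : IsChAt a b c e)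
    (i : Fin 6) : AnalyticOnNhd ℂ (fun u => zc a i (e.symm u)) e.target ∧
      (i ≠ b → i ≠ c → ∀ u ∈ e.target, zc a i (e.symm u) ≠ 0) := by
  obtain ⟨hab, hac, hbc, hsub, hcrd⟩ := he
  have hmem : ∀ u ∈ e.target, e.symm u ∈ Och a b c := fun u hu => hsub (e.map_target hu)
  have haa : ∀ u ∈ e.target, (e.symm u).1 a a ≠ 0 := fun u hu => (hmem u hu).1
  have hz : ∀ u ∈ e.target, zc a b (e.symm u) = u.1 ∧ zc a c (e.symm u) = u.2 := by
    intro u hu
    have h1 := hcrd (e.symm u) (e.map_target hu)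
    rw [e.right_inv hu] at h1
    exact ⟨(congrArg Prod.fst h1).symm, (congrArg Prod.snd h1).symm⟩
  have hza : ∀ u ∈ e.target, zc a a (e.symm u) = 1 := fun u hu => (hrel a _ (haa u hu)).1
  have hne : i ≠ b → i ≠ c → ∀ u ∈ e.target, zc a i (e.symm u) ≠ 0 := by
    intro hib hic u hu
    by_cases hia : i = a
    · rw [hia, hza u hu]; exact one_ne_zero
    · intro h0
      exact (hmem u hu).2 i hia hib hic (((hrel a _ (haa u hu)).2.2.2.1 i).mpr h0)
  refine ⟨?_, hne⟩
  intro u0 hu0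
  have hnhds : e.target ∈ nhds u0 := e.open_target.mem_nhds hu0
  by_cases hia : i = a
  · have h1 : (fun _ : ℂ × ℂ => (1 : ℂ)) =ᶠ[nhds u0] (fun u => zc a i (e.symm u)) := by
      filter_upwards [hnhds] with u hu
      rw [hia, hza u hu]
    exact analyticAt_const.congr h1
  by_cases hib : i = b
  · have h1 : (fun u : ℂ × ℂ => u.1) =ᶠ[nhds u0] (fun u => zc a i (e.symm u)) := by
      filter_upwards [hnhds] with u hu
      rw [hib, (hz u hu).1]
    exact (P4_fst u0).congr h1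
  by_cases hic : i = c
  · have h1 : (fun u : ℂ × ℂ => u.2) =ᶠ[nhds u0] (fun u => zc a i (e.symm u)) := by
      filter_upwards [hnhds] with u hu
      rw [hic, (hz u hu).2]
    exact (P4_snd u0).congr h1
  have hcard : ({a, b, c} : Finset (Fin 6)).card = 3 := by
    rw [Finset.card_eq_three]
    exact ⟨a, b, c, hab, hac, hbc, rfl⟩
  have hnot : i ∉ ({a, b, c} : Finset (Fin 6)) := by
    simp [hia, hib, hic]
  refine P4_sqrt _ (fun u => Lc {a, b, c} i a + (Lc {a, b, c} i b * u.1 ^ 2 +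
    Lc {a, b, c} i c * u.2 ^ 2)) u0 ?_ (hne hib hic u0 hu0) ?_ ?_
  · have h1 : ContinuousAt (zc a i) (e.symm u0) := by
      refine (hzc a i).continuousAt ?_
      have h2 : Continuous fun T : X0 => T.1 a a :=
        (continuous_apply a).comp ((continuous_apply a).comp continuous_subtype_val)
      exact (isOpen_ne_fun h2 continuous_const).mem_nhds (haa u0 hu0)
    exact ContinuousAt.comp h1 (e.symm.continuousAt (by simpa using hu0))
  · exact analyticAt_const.add ((analyticAt_const.mul ((P4_fst u0).pow 2)).add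
      (analyticAt_const.mul ((P4_snd u0).pow 2)))
  · filter_upwards [hnhds] with u hu
    have h1 := (hP1 {a, b, c} hcard _).mp (hrel a _ (haa u hu)).2.1 i hnot
    rw [Finset.sum_insert (by simp [hab, hac]), Finset.sum_insert (by simp [hbc]),
      Finset.sum_singleton] at h1
    simp only [hza u hu, (hz u hu).1, (hz u hu).2] at h1
    rw [h1]
    ring

end Pool.Agent.helper62.K3
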