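import Pool.Agent.helper62.K3.Defs

/-!
Module hk:P8A of the project HK: the action of the group of sign changes and conjugation.
-/

open scoped Manifold ContDiff

noncomputable section

namespace Pool.Agent.helper62.K3

lemma P8A_sg_sq (v : Fin 6 → ZMod 2) (i : Fin 6) : sg v i * sg v i = 1 := by
  unfold sg
  split_ifs
  · simp
  · rw [← mul_pow]; simp

lemma P8A_sg_conj (v : Fin 6 → ZMod 2) (i : Fin 6) : (starRingEnd ℂ) (sg v i) = sg v i := by
  unfold sg
  split_ifs
  · simp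
  · simp

lemma P8A_pow_add (a b : ZMod 2) : ((-1 : ℂ)) ^ (a + b).val = (-1) ^ a.val * (-1) ^ b.val := by
  rw [ZMod.val_add, ← neg_one_pow_eq_pow_mod_two, pow_add]

lemma P8A_sg_add (v w : Fin 6 → ZMod 2) (i : Fin 6) : sg (v + w) i = sg v i * sg w i := by
  unfold sg
  split_ifs
  · simp
  · rw [Pi.add_apply, P8A_pow_add]

lemma P8A_cj_add (v w : Fin 6 → ZMod 2) (z : ℂ) : cj (v + w) z = cj v (cj w z) := by
  unfold cj
  rw [Pi.add_apply]
  have h : ∀ a : ZMod 2, a = 0 ∨ a = 1 := by decide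
  rcases h (v 0) with h1 | h1 <;> rcases h (w 0) with h2 | h2
  · simp [h1, h2]
  · simp [h1, h2]
  · simp [h1, h2]
  · have h3 : (1 : ZMod 2) + 1 = 0 := by decide
    simp [h1, h2, h3]

lemma P8A_cj_mul (v : Fin 6 → ZMod 2) (z w : ℂ) : cj v (z * w) = cj v z * cj v w := by
  unfold cj
  split_ifs <;> simp

lemma P8A_cj_conj (v : Fin 6 → ZMod 2) (z : ℂ) :
    cj v ((starRingEnd ℂ) z) = (starRingEnd ℂ) (cj v z) := by
  unfold cj
  split_ifs <;> simp

lemma P8A_cj_sg (v w : Fin 6 → ZMod 2) (i : Fin 6) : cj v (sg w i) = sg w i := by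
  unfold cj
  split_ifs
  · rfl
  · exact P8A_sg_conj w i

lemma P8A_cj_cont (v : Fin 6 → ZMod 2) : Continuous (cj v) := by
  unfold cj
  by_cases h : v 0 = 0
  · simp only [h, if_true]; exact continuous_id
  · simp only [h, if_false]; exact Complex.continuous_conj

lemma P8A_norm (v : Fin 6 → ZMod 2) (i : Fin 6) (z : ℂ) : ‖sg v i * cj v z‖ = ‖z‖ := by
  have h1 : ‖sg v i‖ = 1 := by
    have h := congrArg norm (P8A_sg_sq v i)
    rw [norm_mul, norm_one] at h
    nlinarith [norm_nonneg (sg v i)]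
  have h2 : ‖cj v z‖ = ‖z‖ := by
    unfold cj
    split_ifs <;> simp
  rw [norm_mul, h1, h2, one_mul]

lemma P8A_cone (v : Fin 6 → ZMod 2) (x : Fin 6 → ℂ) (hx : x ∈ Cone) :
    (fun i => sg v i * cj v (x i)) ∈ Cone := by
  obtain ⟨h0, h⟩ := hx
  refine ⟨?_, fun m => ?_⟩
  · intro h1
    apply h0
    funext i
    have h2 := congrFun h1 i
    have h3 := congrArg norm h2
    simp only [Pi.zero_apply, norm_zero] at h3
    rw [P8A_norm] at h3
    simpa using h3
  · have h2 : ∀ i : Fin 6, (((i : ℕ) : ℂ) ^ (m : ℕ) * (sg v i * cj v (x i)) ^ 2) =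
        cj v (((i : ℕ) : ℂ) ^ (m : ℕ) * x i ^ 2) := by
      intro i
      have h3 : cj v (((i : ℕ) : ℂ) ^ (m : ℕ)) = ((i : ℕ) : ℂ) ^ (m : ℕ) := by
        unfold cj
        split_ifs <;> simp
      rw [P8A_cj_mul, h3, mul_pow, sq (sg v i), P8A_sg_sq, one_mul, sq (x i), P8A_cj_mul,
        sq (cj v (x i))]
    have h4 : cj v (∑ i : Fin 6, ((i : ℕ) : ℂ) ^ (m : ℕ) * x i ^ 2) =
        ∑ i : Fin 6, cj v (((i : ℕ) : ℂ) ^ (m : ℕ) * x i ^ 2) := by
      unfold cj
      split_ifs
      · rfl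
      · rw [map_sum]
    simp only [h2]
    rw [← h4, h m]
    unfold cj
    split_ifs <;> simp

/-- The map of `X0` belonging to `v`. -/
def P8A_map (v : Fin 6 → ZMod 2) (T : X0) : X0 :=
  ⟨fun i j => sg v i * sg v j * cj v (T.1 i j), by
    obtain ⟨x, hx, h1, h2⟩ := T.2
    refine ⟨fun i => sg v i * cj v (x i), P8A_cone v x hx, ?_, ?_⟩
    · simp only [P8A_norm]
      exact h1
    · intro i j
      have h3 : sg v i * sg v j * cj v (T.1 i j) = (sg v i * cj v (x i)) *
          (starRingEnd ℂ) (sg v j * cj v (x j)) := by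
        have h4 : T.1 i j = x i * (starRingEnd ℂ) (x j) := h2 i j
        rw [h4, P8A_cj_mul, P8A_cj_conj, map_mul, P8A_sg_conj]
        ring
      exact h3⟩

lemma P8A_map_apply (v : Fin 6 → ZMod 2) (T : X0) (i j : Fin 6) :
    (P8A_map v T).1 i j = sg v i * sg v j * cj v (T.1 i j) := rfl

lemma P8A_map_add (v w : Fin 6 → ZMod 2) (T : X0) :
    P8A_map (v + w) T = P8A_map v (P8A_map w T) := by
  apply Subtype.ext
  funext i j
  rw [P8A_map_apply, P8A_map_apply, P8A_map_apply, P8A_sg_add, P8A_sg_add, P8A_cj_add,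
    P8A_cj_mul, P8A_cj_mul, P8A_cj_sg, P8A_cj_sg]
  ring

lemma P8A_map_zero (T : X0) : P8A_map 0 T = T := by
  apply Subtype.ext
  funext i j
  rw [P8A_map_apply]
  simp [sg, cj]

lemma P8A_map_cont (v : Fin 6 → ZMod 2) : Continuous (P8A_map v) := by
  refine Continuous.subtype_mk ?_ _
  refine continuous_pi fun i => continuous_pi fun j => ?_
  refine continuous_const.mul ((P8A_cj_cont v).comp ?_)
  exact (continuous_apply j).comp ((continuous_apply i).comp continuous_subtype_val)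

lemma P8A_two (v : Fin 6 → ZMod 2) : v + v = 0 := by
  funext i
  have h : ∀ a : ZMod 2, a + a = 0 := by decide
  exact h (v i)

/-- hk:P8A the action of `(ℤ/2)^6` -/
theorem P8A : ∃ ρ : Multiplicative (Fin 6 → ZMod 2) →* (X0 ≃ₜ X0),
    ∀ (v : Fin 6 → ZMod 2) (T : X0) (i j : Fin 6),
      (ρ (Multiplicative.ofAdd v) T).1 i j = sg v i * sg v j * cj v (T.1 i j) := by
  refine ⟨MonoidHom.mk' (fun g =>
    { toFun := P8A_map (Multiplicative.toAdd g)
      invFun := P8A_map (Multiplicative.toAdd g)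
      left_inv := fun T => by rw [← P8A_map_add, P8A_two, P8A_map_zero]
      right_inv := fun T => by rw [← P8A_map_add, P8A_two, P8A_map_zero]
      continuous_toFun := P8A_map_cont _
      continuous_invFun := P8A_map_cont _ }) ?_, ?_⟩
  · intro g h
    ext1 T
    exact P8A_map_add (Multiplicative.toAdd g) (Multiplicative.toAdd h) T
  · intro v T i j
    exact P8A_map_apply v T i j

end Pool.Agent.helper62.K3
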