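import Pool.Agent.helper62.K3.Defs

/-!
Module hk:P8B of the project HK: the action of the sign changes and conjugation is effective.
-/

open scoped Manifold ContDiff

noncomputable section

namespace Pool.Agent.helper62.K3

lemma P8B_mk (x : Fin 6 → ℂ) (hx : x ∈ Cone) :
    ∃ T : X0, ∃ c : ℂ, c ≠ 0 ∧ ∀ i j, T.1 i j = x i * (starRingEnd ℂ) (x j) * c := by
  obtain ⟨h0, h⟩ := hx
  have hN : 0 < ∑ i, ‖x i‖ ^ 2 := by
    obtain ⟨i, hi⟩ := Function.ne_iff.mp h0
    refine Finset.sum_pos' (fun i _ => by positivity) ⟨i, Finset.mem_univ i, ?_⟩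
    have : 0 < ‖x i‖ := norm_pos_iff.mpr hi
    positivity
  set N : ℝ := ∑ i, ‖x i‖ ^ 2 with hNdef
  have hs : 0 < Real.sqrt N := Real.sqrt_pos.mpr hN
  have hsC : ((Real.sqrt N : ℝ) : ℂ) ≠ 0 := by exact_mod_cast hs.ne'
  have hss : ((Real.sqrt N : ℝ) : ℂ) * ((Real.sqrt N : ℝ) : ℂ) = (N : ℂ) := by
    rw [← Complex.ofReal_mul, Real.mul_self_sqrt hN.le]
  have hNC : (N : ℂ) ≠ 0 := by exact_mod_cast hN.ne'
  refine ⟨⟨fun i j => x i * (starRingEnd ℂ) (x j) * ((N : ℂ))⁻¹, ?_⟩, ((N : ℂ))⁻¹,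
    inv_ne_zero hNC, fun i j => rfl⟩
  refine ⟨fun i => x i * (((Real.sqrt N : ℝ) : ℂ))⁻¹, ⟨?_, fun m => ?_⟩, ?_, fun i j => ?_⟩
  · intro h1
    apply h0
    funext i
    have h2 := congrFun h1 i
    simp only [Pi.zero_apply, mul_eq_zero, inv_eq_zero] at h2
    rcases h2 with h2 | h2
    · exact h2
    · exact absurd h2 hsC
  · have h1 : ∀ i : Fin 6, (((i : ℕ) : ℂ) ^ (m : ℕ) * (x i * (((Real.sqrt N : ℝ) : ℂ))⁻¹) ^ 2) =
        (((i : ℕ) : ℂ) ^ (m : ℕ) * x i ^ 2) * ((((Real.sqrt N : ℝ) : ℂ))⁻¹ ^ 2) := by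
      intro i; ring
    simp only [h1]
    rw [← Finset.sum_mul, h m, zero_mul]
  · have h1 : ∀ i : Fin 6, ‖x i * (((Real.sqrt N : ℝ) : ℂ))⁻¹‖ ^ 2 = ‖x i‖ ^ 2 * N⁻¹ := by
      intro i
      rw [norm_mul, norm_inv, Complex.norm_real, Real.norm_eq_abs, abs_of_pos hs, mul_pow, inv_pow,
        Real.sq_sqrt hN.le]
    simp only [h1]
    rw [← Finset.sum_mul, ← hNdef, mul_inv_cancel₀ hN.ne']
  · rw [map_mul, map_inv₀, Complex.conj_ofReal]
    have h1 : ((N : ℂ))⁻¹ = (((Real.sqrt N : ℝ) : ℂ))⁻¹ * (((Real.sqrt N : ℝ) : ℂ))⁻¹ := by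
      rw [← mul_inv, hss]
    rw [h1]
    ring

lemma P8B_point : ∃ x ∈ Cone, x 0 = 1 ∧ x 1 = 1 + Complex.I ∧ ∀ i, x i ≠ 0 := by
  obtain ⟨a, ha⟩ := IsAlgClosed.exists_pow_nat_eq (-13 - 12 * Complex.I) (n := 2) (by norm_num)
  obtain ⟨b, hb⟩ := IsAlgClosed.exists_pow_nat_eq (18 + 16 * Complex.I) (n := 2) (by norm_num)
  obtain ⟨c, hc⟩ := IsAlgClosed.exists_pow_nat_eq (-7 - 6 * Complex.I) (n := 2) (by norm_num)
  have ha0 : a ≠ 0 := by
    rintro rfl
    have := congrArg Complex.re ha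
    norm_num at this
  have hb0 : b ≠ 0 := by
    rintro rfl
    have := congrArg Complex.re hb
    norm_num at this
  have hc0 : c ≠ 0 := by
    rintro rfl
    have := congrArg Complex.re hc
    norm_num at this
  have hI : (1 + Complex.I) ^ 2 = 2 * Complex.I := by
    rw [add_sq, Complex.I_sq]; ring
  have hI0 : (1 + Complex.I) ≠ 0 := by
    intro h
    have := congrArg Complex.re h
    norm_num at this
  refine ⟨![1, 1 + Complex.I, 1, a, b, c], ⟨?_, ?_⟩, rfl, rfl, ?_⟩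
  · intro h
    have := congrFun h 0
    simp at this
  · intro m
    fin_cases m
    · simp [Fin.sum_univ_six, ha, hb, hc, hI]
      ring
    · simp [Fin.sum_univ_six, ha, hb, hc, hI]
      ring
    · simp [Fin.sum_univ_six, ha, hb, hc, hI]
      ring
  · intro i
    fin_cases i
    · simp
    · simpa using hI0
    · simp
    · simpa using ha0
    · simpa using hb0
    · simpa using hc0

/-- hk:P8B it is effective -/
theorem P8B (v : Fin 6 → ZMod 2)
    (h : ∀ (T : X0) (i j : Fin 6), sg v i * sg v j * cj v (T.1 i j) = T.1 i j) : v = 0 := by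
  obtain ⟨x, hx, hx0, hx1, hxi⟩ := P8B_point
  obtain ⟨T, c, hc, hT⟩ := P8B_mk x hx
  have hc2 := hT 0 0
  have hs0 : sg v 0 = 1 := by simp [sg]
  have h1 : ∀ i, sg v i * cj v (T.1 i 0) = T.1 i 0 := by
    intro i
    have h2 := h T i 0
    rw [hs0, mul_one] at h2
    exact h2
  have h3 : ∀ i, T.1 i 0 = x i * c := by
    intro i
    rw [hT, hx0]; simp
  by_cases hv : v 0 = 0
  · funext i
    by_cases hi : i = 0
    · rw [hi, hv]; rfl
    · have h4 := h1 i
      have h5 : cj v (T.1 i 0) = T.1 i 0 := by simp [cj, hv]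
      rw [h5, h3] at h4
      have h6 : sg v i = 1 := by
        have h7 : x i * c ≠ 0 := mul_ne_zero (hxi i) hc
        exact mul_right_cancel₀ h7 (by rw [h4, one_mul])
      simp only [sg, hi, if_false] at h6
      have h8 : ∀ a : ZMod 2, a = 0 ∨ a = 1 := by decide
      rcases h8 (v i) with h9 | h9
      · rw [h9]; rfl
      · exfalso
        rw [h9] at h6
        have h10 : (1 : ZMod 2).val = 1 := rfl
        rw [h10] at h6
        norm_num at h6
  · exfalso
    have h4 : ∀ i, sg v i * (starRingEnd ℂ) (x i * c) = x i * c := by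
      intro i
      have h5 := h1 i
      have h6 : cj v (T.1 i 0) = (starRingEnd ℂ) (T.1 i 0) := by simp [cj, hv]
      rw [h6, h3] at h5
      exact h5
    have h5 := h4 0
    rw [hs0, hx0, one_mul, one_mul] at h5
    have h6 := h4 1
    rw [map_mul, h5, hx1, ← mul_assoc] at h6
    have h7 := mul_right_cancel₀ hc h6
    rw [map_add, map_one, Complex.conj_I] at h7
    have h8 : sg v 1 = 1 ∨ sg v 1 = -1 := by
      simp only [sg]
      have h9 : (1 : Fin 6) ≠ 0 := by decide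
      simp only [h9, if_false]
      exact neg_one_pow_eq_or ℂ _
    rcases h8 with h9 | h9
    · rw [h9] at h7
      have := congrArg Complex.im h7
      norm_num at this
    · rw [h9] at h7
      have := congrArg Complex.re h7
      norm_num at this

end Pool.Agent.helper62.K3
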